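import Mathlib
import Pool.Agent.H.MP_bc0af3_ag.Act

namespace Pool.Agent.Results.MP_bc0af3_ag.Q1
open Polynomial

variable {k B : Type*} [CommRing k] [CommRing B] [Algebra k B]

/-- A `G_a`-action: (A1) and (A2), with `T = C X` and `U = X` in `B[T][U]`. -/
def IsGa (ε : B →ₐ[k] B[X]) : Prop :=
  (∀ b, (ε b).coeff 0 = b) ∧
    ∀ b, (ε b).map (ε : B →+* B[X]) = aeval (C X + X : B[X][X]) (ε b)

/-- Exponential automorphisms. -/
def Exponential (φ : B ≃ₐ[k] B) : Prop :=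
  ∃ ε : B →ₐ[k] B[X], IsGa ε ∧ ∃ a, ε a = C a ∧ ∀ b, φ b = (ε b).eval a

/-- The invariant ring. -/
def Inv (φ : B ≃ₐ[k] B) : Subalgebra k B := AlgHom.equalizer (φ : B →ₐ[k] B) (AlgHom.id k B)

/-- The plinth ideal. -/
def plinth (φ : B ≃ₐ[k] B) : Ideal (Inv φ) where
  carrier := {a | ∃ b, φ b - b = a}
  zero_mem' := ⟨0, by simp⟩
  add_mem' := by
    rintro a b ⟨x, hx⟩ ⟨y, hy⟩
    exact ⟨x + y, by rw [map_add, Subalgebra.coe_add, ← hx, ← hy]; ring⟩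
  smul_mem' := by
    rintro c a ⟨x, hx⟩
    have hc : φ c = c := c.2
    exact ⟨c * x, by rw [map_mul, hc, smul_eq_mul, Subalgebra.coe_mul, ← hx]; ring⟩

open Pool.Agent.H.MP_bc0af3_ag in
theorem result (k : Type*) [Field k] (p : ℕ) [hp : Fact p.Prime] [CharP k p] :
    ∃ φ : MvPolynomial (Fin 3) k ≃ₐ[k] MvPolynomial (Fin 3) k, Exponential φ ∧
      (plinth φ).IsPrincipal ∧ IsEmpty (Inv φ ≃ₐ[k] MvPolynomial (Fin 3) k) := by
  obtain ⟨r, rfl⟩ : ∃ r, p = r + 2 := ⟨p - 2, by have := hp.out.two_le; omega⟩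
  refine ⟨phi k r, ⟨eps k r, ⟨A1 k r, A2 k r⟩, xx k, eps_x k r, phi_apply k r⟩,
    ⟨⟨xx k, phi_x k r⟩, ?_⟩, ⟨fun e => ?_⟩⟩
  · ext a
    rw [Ideal.submodule_span_eq, Ideal.mem_span_singleton]
    constructor
    · rintro ⟨b, hb⟩
      obtain ⟨h, hh⟩ := x_dvd k r b
      have ha : phi k r a = a := a.2
      rw [← hb, hh, map_mul, phi_x] at ha
      exact ⟨⟨h, mul_left_cancel₀ (xx_ne k) ha⟩, Subtype.ext (hb.symm.trans hh)⟩
    · rintro ⟨c, rfl⟩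
      exact Ideal.mul_mem_right _ (plinth (phi k r)) ⟨bb k r, by rw [phi_b]; simp⟩
  · let π : P4 k →ₐ[k] Inv (phi k r) := (pr k r).codRestrict _ (phi_pr k r)
    refine not_poly (r + 2) ((e : Inv (phi k r) →ₐ[k] P3 k).comp π) (fun b => ?_) fun G => ?_
    · obtain ⟨G, hG⟩ := inv_mem k r (g := e.symm b) (e.symm b).2
      refine ⟨G, ?_⟩
      have : π G = e.symm b := Subtype.ext hG
      simp [this]
    · rw [← ker_pr]
      simp [π, Subtype.ext_iff]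

end Pool.Agent.Results.MP_bc0af3_ag.Q1
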